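import Mathlib
import Pool.Agent.Helper576.VLin

set_option autoImplicit false

namespace Pool.Agent.Results.MP_c8c16f_gt.TightApprox

/-- Euclidean `n`-space. -/
abbrev E (n : ℕ) : Type := EuclideanSpace ℝ (Fin n)

/-- The unit sphere in Euclidean three-space. -/
abbrev S2 : Type := Metric.sphere (0 : E 3) 1

/-- Two points of the sphere are equivalent if they are equal or antipodal. -/
def antipodal : Setoid S2 where
  r x y := x = y ∨ x = -y
  iseqv :=
    { refl := fun _ => Or.inl rfl
      symm := by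
        rintro x y (h | h)
        · exact Or.inl h.symm
        · exact Or.inr (by rw [h, neg_neg])
      trans := by
        rintro x y z (rfl | rfl) (rfl | rfl)
        · exact Or.inl rfl
        · exact Or.inr rfl
        · exact Or.inr rfl
        · exact Or.inl (neg_neg _) }

/-- The real projective plane, with the quotient topology. -/
abbrev RP2 : Type := Quotient antipodal

/-- The class of a point of the sphere in the projective plane. -/
def cls (x : S2) : RP2 := Quotient.mk antipodal x

/-- The Veronese map `v(x) = (x₀², x₁², x₂², √2 x₀x₁, √2 x₀x₂, √2 x₁x₂)`. -/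
noncomputable def veronese (x : E 3) : E 6 :=
  !₂[x 0 ^ 2, x 1 ^ 2, x 2 ^ 2, Real.sqrt 2 * (x 0 * x 1), Real.sqrt 2 * (x 0 * x 2),
    Real.sqrt 2 * (x 1 * x 2)]

/-- `L : F → G` is the orthogonal projection of `F` onto its linear subspace `K` followed by a
linear isometry of `K` onto `G`. -/
def IsOrthogonalProjection {F G : Type} [NormedAddCommGroup F] [InnerProductSpace ℝ F]
    [NormedAddCommGroup G] [InnerProductSpace ℝ G] (K : Submodule ℝ F) (L : F →L[ℝ] G) : Prop :=
  (∀ x ∈ Kᗮ, L x = 0) ∧ (∀ x ∈ K, ‖L x‖ = ‖x‖) ∧ Function.Surjective L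

/-- `f : RP2 → E 4` is a Veronese surface in Euclidean four-space: it is `[x] ↦ L (v x) + c`, where
`L` is the orthogonal projection onto a four-dimensional linear subspace `K` parallel to the
hyperplane `x₀ + x₁ + x₂ = 1`, followed by a linear isometry of `K` onto `E 4`, `c` is a
translation, and `f` is an immersion: the derivative of `x ↦ L (v x)` is injective on every tangent
plane of the unit sphere. -/
def IsVeroneseSurface (f : RP2 → E 4) : Prop :=
  ∃ (K : Submodule ℝ (E 6)) (L : E 6 →L[ℝ] E 4) (c : E 4),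
    (∀ y ∈ K, y 0 + y 1 + y 2 = 0) ∧ IsOrthogonalProjection K L ∧
    (∀ x : S2, f (cls x) = L (veronese x) + c) ∧
    ∀ x w : E 3, ‖x‖ = 1 → inner ℝ x w = 0 → fderiv ℝ (fun y => L (veronese y)) x w = 0 → w = 0

/-- `f` is tight: it is continuous and the preimage of every closed half-space is connected or
empty. -/
def IsTight {M : Type} [TopologicalSpace M] {n : ℕ} (f : M → E n) : Prop :=
  Continuous f ∧ ∀ (u : E n) (c : ℝ), IsPreconnected (f ⁻¹' {y : E n | c ≤ inner ℝ u y})

/-- `g` is polyhedral: there is a finite triangulation of `M` (a homeomorphism onto `M` from the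
underlying space of a finite geometric simplicial complex) such that `g` is affine linear on each
of its simplices. -/
def IsPolyhedral {M : Type} [TopologicalSpace M] {n : ℕ} (g : M → E n) : Prop :=
  ∃ (m : ℕ) (T : Geometry.SimplicialComplex ℝ (E m)) (h : T.space ≃ₜ M), T.faces.Finite ∧
    ∀ s ∈ T.faces, ∃ A : E m →ᵃ[ℝ] E n, ∀ x : T.space,
      (x : E m) ∈ convexHull ℝ (s : Set (E m)) → g (h x) = A x

/-- `g` is locally injective. -/
def IsLocallyInjective {M : Type} [TopologicalSpace M] {n : ℕ} (g : M → E n) : Prop :=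
  ∀ x : M, ∃ U ∈ nhds x, Set.InjOn g U

/-- A polyhedral immersion: a locally injective polyhedral map. -/
def IsPolyhedralImmersion {M : Type} [TopologicalSpace M] {n : ℕ} (g : M → E n) : Prop :=
  IsPolyhedral g ∧ IsLocallyInjective g

open Pool.Agent.Helper576 in
/-- Every Veronese surface in Euclidean four-space is the uniform limit of a sequence of tight
polyhedral immersions of the projective plane; they can even be taken to be embeddings. -/
theorem result (f : RP2 → E 4) (hf : IsVeroneseSurface f) :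
    ∃ g : ℕ → RP2 → E 4,
      (∀ n, IsTight (g n) ∧ IsPolyhedralImmersion (g n) ∧ Function.Injective (g n)) ∧
      TendstoUniformly g f Filter.atTop := by
  obtain ⟨K, L, c, hK, hL, hfx, himm⟩ := hf
  obtain ⟨M, b, T, hinj, hb, hT⟩ := VLin.linalg K L hK hL himm
  have key : ∀ n : ℕ, ∃ g : RP2 → E 4, (IsTight g ∧ IsPolyhedralImmersion g ∧ Function.Injective g) ∧
      ∀ y, ‖g y - f y‖ ≤ 1 / ((n : ℝ) + 1) := by
    intro n
    obtain ⟨g, S, h1, h2, h3, h4, h5, h6⟩ := VFin.assemble f M
      (b + (LinearMap.toSpanSingleton ℝ (E 4) c).comp T) T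
      (by
        intro v hv1 hv2
        apply hinj v _ hv2
        simp only [LinearMap.add_apply, LinearMap.comp_apply, hv2, map_zero, add_zero] at hv1
        exact hv1)
      hT
      (by
        intro x
        have hx : ‖(x : E 3)‖ = 1 := by
          have := x.2
          rwa [mem_sphere_zero_iff_norm] at this
        rw [LinearMap.add_apply, LinearMap.comp_apply, hb, hT, hx, one_pow,
          LinearMap.toSpanSingleton_apply, one_smul]
        exact (hfx x).symm)
      (1 / ((n : ℝ) + 1)) (by positivity)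
    refine ⟨g, ⟨⟨h2, h5⟩, ⟨?_, ?_⟩, h3⟩, h6⟩
    · have hg : ∀ y, g y ∈ S.space := fun y => h4 ▸ Set.mem_range_self y
      let g' : RP2 → S.space := fun y => ⟨g y, hg y⟩
      have hg'c : Continuous g' := h2.subtype_mk _
      have hbij : Function.Bijective g' := by
        constructor
        · intro x y h
          exact h3 (congrArg Subtype.val h)
        · rintro ⟨z, hz⟩
          rw [← h4] at hz
          obtain ⟨y, rfl⟩ := hz
          exact ⟨y, rfl⟩
      let e : RP2 ≃ S.space := Equiv.ofBijective g' hbij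
      let h : RP2 ≃ₜ S.space := Continuous.homeoOfEquivCompactToT2 (f := e) hg'c
      refine ⟨4, S, h.symm, h1, ?_⟩
      intro s _
      refine ⟨AffineMap.id ℝ (E 4), ?_⟩
      intro x _
      have : g' (h.symm x) = x := h.apply_symm_apply x
      exact congrArg Subtype.val this
    · intro x
      exact ⟨Set.univ, Filter.univ_mem, fun a _ b _ h => h3 h⟩
  choose g hg1 hg2 using key
  refine ⟨g, hg1, ?_⟩
  rw [Metric.tendstoUniformly_iff]
  intro ε hε
  obtain ⟨N, hN⟩ := exists_nat_one_div_lt hε
  filter_upwards [Filter.eventually_ge_atTop N] with n hn y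
  rw [dist_comm, dist_eq_norm]
  refine lt_of_le_of_lt (hg2 n y) (lt_of_le_of_lt ?_ hN)
  apply one_div_le_one_div_of_le (by positivity)
  have : (N : ℝ) ≤ n := by exact_mod_cast hn
  linarith

/-- The linear map `y ↦ ((y₀ - y₁) / √2, y₃, y₄, y₅)`, used in the example below. -/
noncomputable def exL : E 6 →ₗ[ℝ] E 4 where
  toFun y := !₂[Real.sqrt 2 / 2 * (y 0 - y 1), y 3, y 4, y 5]
  map_add' a b := by
    ext i; fin_cases i <;> simp
    ring
  map_smul' c a := by
    ext i; fin_cases i <;> simp
    ring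

/-- The linear subspace `y₂ = 0`, `y₀ + y₁ = 0`, used in the example below. -/
def exK : Submodule ℝ (E 6) where
  carrier := {y | y 2 = 0 ∧ y 0 + y 1 = 0}
  zero_mem' := by simp
  add_mem' := by
    rintro a b ⟨h1, h2⟩ ⟨h3, h4⟩
    refine ⟨?_, ?_⟩
    · simp [h1, h3]
    · simp only [PiLp.add_apply]; linarith
  smul_mem' := by
    rintro c a ⟨h1, h2⟩
    refine ⟨?_, ?_⟩
    · simp [h1]
    · simp only [PiLp.smul_apply, smul_eq_mul]
      rw [← mul_add, h2, mul_zero]

open Pool.Agent.Helper576 in
/-- Veronese surfaces in Euclidean four-space exist: for instance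
`[x] ↦ ((x₀² - x₁²) / √2, √2 x₀x₁, √2 x₀x₂, √2 x₁x₂)`. -/
theorem exists_isVeroneseSurface : ∃ f : RP2 → E 4, IsVeroneseSurface f := by
  have hs : Real.sqrt 2 * Real.sqrt 2 = 2 := Real.mul_self_sqrt (by norm_num)
  have hs0 : Real.sqrt 2 ≠ 0 := by positivity
  let L : E 6 →L[ℝ] E 4 := LinearMap.toContinuousLinearMap exL
  have hL : ∀ y, L y = !₂[Real.sqrt 2 / 2 * (y 0 - y 1), y 3, y 4, y 5] := fun y => rfl
  refine ⟨Quotient.lift (fun x : S2 => L (veronese x)) ?_, exK, L, 0, ?_, ⟨?_, ?_, ?_⟩, ?_, ?_⟩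
  · rintro x y (h | h)
    · rw [h]
    · rw [h]
      congr 1
      show veronese (-(y : E 3)) = veronese (y : E 3)
      unfold veronese
      ext i; fin_cases i <;> simp
  · rintro y ⟨h1, h2⟩
    rw [h1, h2, add_zero]
  · intro x hx
    rw [Submodule.mem_orthogonal] at hx
    have g1 := hx !₂[1, -1, 0, 0, 0, 0] (by refine ⟨?_, ?_⟩ <;> simp)
    have g3 := hx !₂[0, 0, 0, 1, 0, 0] (by refine ⟨?_, ?_⟩ <;> simp)
    have g4 := hx !₂[0, 0, 0, 0, 1, 0] (by refine ⟨?_, ?_⟩ <;> simp)
    have g5 := hx !₂[0, 0, 0, 0, 0, 1] (by refine ⟨?_, ?_⟩ <;> simp)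
    rw [VLin.inner6] at g1 g3 g4 g5
    simp at g1 g3 g4 g5
    rw [hL]
    ext i; fin_cases i
    · simp; linarith
    · simpa using g3
    · simpa using g4
    · simpa using g5
  · rintro x ⟨h1, h2⟩
    rw [EuclideanSpace.norm_eq, EuclideanSpace.norm_eq, hL]
    congr 1
    simp only [Fin.sum_univ_six, Fin.sum_univ_four, Real.norm_eq_abs, sq_abs]
    simp [h1]
    have h3 : x 1 = -x 0 := by linarith
    rw [h3]
    linear_combination (x 0) ^ 2 * hs
  · intro z
    refine ⟨!₂[Real.sqrt 2 / 2 * z 0, -(Real.sqrt 2 / 2 * z 0), 0, z 1, z 2, z 3], ?_⟩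
    rw [hL]
    ext i; fin_cases i
    · simp
      linear_combination (1 / 2 * z 0) * hs
    · simp
    · simp
    · simp
  · intro x
    rw [add_zero]; rfl
  · intro x w hx hxw hd
    have hd' := (VLin.fderiv_ver L x w).symm.trans hd
    have h0 : L (VLin.V x w) = 0 := (smul_eq_zero.mp hd').resolve_left (by norm_num)
    rw [hL] at h0
    have e0 := congrArg (fun v : E 4 => v 0) h0
    have e1 := congrArg (fun v : E 4 => v 1) h0
    have e2 := congrArg (fun v : E 4 => v 2) h0
    have e3 := congrArg (fun v : E 4 => v 3) h0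
    simp [VLin.V] at e0 e1 e2 e3
    rw [VLin.inner3] at hxw
    have hx2 : x 0 ^ 2 + x 1 ^ 2 + x 2 ^ 2 = 1 := by
      have := real_inner_self_eq_norm_sq x
      rw [hx, VLin.inner3] at this
      linarith
    have f0 : (x 0 ^ 2 + x 1 ^ 2) * w 0 = 0 := by linear_combination x 0 * e0 + x 1 * e1
    have f1 : (x 0 ^ 2 + x 1 ^ 2) * w 1 = 0 := by linear_combination x 0 * e1 - x 1 * e0
    have hw : w 0 = 0 ∧ w 1 = 0 ∧ w 2 = 0 := by
      by_cases hz : x 0 ^ 2 + x 1 ^ 2 = 0
      · have hx0 : x 0 = 0 := by nlinarith [sq_nonneg (x 0), sq_nonneg (x 1)]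
        have hx1 : x 1 = 0 := by nlinarith [sq_nonneg (x 0), sq_nonneg (x 1)]
        have hx2' : x 2 ≠ 0 := by
          intro h; rw [hx0, hx1, h] at hx2; norm_num at hx2
        rw [hx0, hx1] at hxw
        rw [hx0] at e2
        rw [hx1] at e3
        refine ⟨?_, ?_, ?_⟩
        · exact (mul_eq_zero.mp (by linarith : x 2 * w 0 = 0)).resolve_left hx2'
        · exact (mul_eq_zero.mp (by linarith : x 2 * w 1 = 0)).resolve_left hx2'
        · exact (mul_eq_zero.mp (by linarith : x 2 * w 2 = 0)).resolve_left hx2'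
      · have g0 := (mul_eq_zero.mp f0).resolve_left hz
        have g1 := (mul_eq_zero.mp f1).resolve_left hz
        rw [g0] at e2
        rw [g1] at e3
        refine ⟨g0, g1, ?_⟩
        have : (x 0 ^ 2 + x 1 ^ 2) * w 2 = 0 := by linear_combination x 0 * e2 + x 1 * e3
        exact (mul_eq_zero.mp this).resolve_left hz
    ext i; fin_cases i
    · exact hw.1
    · exact hw.2.1
    · exact hw.2.2

end Pool.Agent.Results.MP_c8c16f_gt.TightApprox
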